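import Pool.Agent.H81.D3.Targets

/-!
Row GCE of d3n_modules: energy of the caps of radius `1/w`.
-/

set_option autoImplicit false

namespace Pool.Agent.H33.D3

open MeasureTheory Set
open Pool.Agent.H83.G Pool.Agent.H81.D3

/-- the cap multipliers at scale `s` have sum of squares at most one -/
theorem gce_sum (hPUS : T_PUS) {β : E 2 → ℂ} (hβ : IsPU β) {s : ℝ} (hs : 0 < s)
    (J : Finset (Fin 2 → ℤ)) (ζ : Z 2) : ∑ κ ∈ J, ‖cp β (ctr s κ) s ζ‖ ^ 2 ≤ 1 := by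
  obtain ⟨h1, -⟩ := hPUS 2
  obtain ⟨h2, -⟩ := h1 β s hβ hs
  have h3 := h2 (ζ.1⁻¹ • ζ.2.1)
  have hr : ∀ κ : Fin 2 → ℤ, ∃ r : ℝ, 0 ≤ r ∧ r ≤ 1 ∧ cp β (ctr s κ) s ζ = (r : ℂ) :=
    fun κ => hβ.2.2.1 _
  choose r hr0 hr1 hr2 using hr
  have h4 : HasSum (fun κ => (r κ : ℂ)) ((1 : ℝ) : ℂ) := by
    have : (fun κ => (r κ : ℂ)) = fun κ => β (s⁻¹ • (ζ.1⁻¹ • ζ.2.1 - ctr s κ)) := by
      funext κ
      rw [← hr2 κ]
      rfl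
    rw [this]
    simpa using h3
  have h5 : HasSum r 1 := by exact_mod_cast h4
  calc ∑ κ ∈ J, ‖cp β (ctr s κ) s ζ‖ ^ 2 ≤ ∑ κ ∈ J, r κ := by
        refine Finset.sum_le_sum fun κ _ => ?_
        rw [hr2 κ, Complex.norm_real, Real.norm_eq_abs, abs_of_nonneg (hr0 κ)]
        nlinarith [hr0 κ, hr1 κ]
    _ ≤ 1 := sum_le_hasSum J (fun κ _ => hr0 κ) h5

theorem gce_pow (s : ℝ) (hs : 0 < s) : s ^ 8 * (s⁻¹) ^ (2 + 2) = s ^ 4 := by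
  have h4 : s ^ 8 = s ^ 4 * s ^ (2 + 2) := by ring
  rw [inv_pow, h4, mul_assoc, mul_inv_cancel₀ (by positivity), mul_one]

theorem pf_GCE (hLOI : T_LOI) (hCPS : T_CPS) (hPUS : T_PUS) : T_GCE := by
  intro L β R A G w hβ hR hA hw hG
  have hw0 : (0 : ℝ) < w := by exact_mod_cast (Nat.lt_of_lt_of_le Nat.zero_lt_one hw)
  set s : ℝ := (w : ℝ)⁻¹ with hs
  have hs0 : 0 < s := inv_pos.2 hw0
  have hTC : TC G := hG.1
  have hsup : ∀ ζ, G ζ ≠ 0 → 1 / 4 ≤ ζ.1 := by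
    intro ζ h
    have h1 := (hG.2.1 ζ h).1
    linarith
  -- each cap
  have hcap : ∀ κ : Fin 2 → ℤ, ∫ ζ, ‖Gc β w G κ ζ‖ ^ 2 =
      s ^ 4 * ∫ ζ, ‖cp β (ctr s κ) s ζ * G ζ‖ ^ 2 := by
    intro κ
    have h1 := (hLOI 2 (ctr s κ) s hs0).2.2.2.1
      (fun ζ => ‖cp β (ctr s κ) s ζ * G ζ‖ ^ 2)
    have h2 : (fun ζ => ‖Gc β w G κ ζ‖ ^ 2) = fun ζ =>
        s ^ 8 * ‖cp β (ctr s κ) s (Ld (ctr s κ) s ζ) * G (Ld (ctr s κ) s ζ)‖ ^ 2 := by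
      funext ζ
      unfold Gc RS
      rw [← hs, norm_mul, Complex.norm_real, Real.norm_eq_abs, abs_of_nonneg (by positivity)]
      ring
    rw [h2, integral_const_mul, h1]
    have h3 : s ^ 8 * (s⁻¹) ^ (2 + 2) = s ^ 4 := gce_pow s hs0
    rw [← mul_assoc, h3]
  have hint : ∀ κ : Fin 2 → ℤ, Integrable (fun ζ => ‖cp β (ctr s κ) s ζ * G ζ‖ ^ 2) := by
    intro κ
    have h1 := hCPS 2 β (ctr s κ) s G hβ.1 hs0 hTC hsup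
    have h2 : Continuous (fun ζ => ‖cp β (ctr s κ) s ζ * G ζ‖ ^ 2) :=
      (h1.1.continuous.norm).pow 2
    refine h2.integrable_of_hasCompactSupport ?_
    refine h1.2.mono ?_
    intro ζ hζ hz
    apply hζ
    change ‖cp β (ctr s κ) s ζ * G ζ‖ ^ 2 = 0
    have : cp β (ctr s κ) s ζ * G ζ = 0 := hz
    rw [this]; simp
  have hintG : Integrable (fun ζ => ‖G ζ‖ ^ 2) := by
    refine ((hTC.1.continuous.norm).pow 2).integrable_of_hasCompactSupport ?_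
    refine hTC.2.mono ?_
    intro ζ hζ hz
    apply hζ
    change ‖G ζ‖ ^ 2 = 0
    rw [hz]; simp
  have hw4 : ((w : ℝ) ^ 4)⁻¹ = s ^ 4 := by rw [hs, inv_pow]
  rw [hw4]
  calc ∑ κ ∈ Ks 2 s, ∫ ζ, ‖Gc β w G κ ζ‖ ^ 2
      = s ^ 4 * ∑ κ ∈ Ks 2 s, ∫ ζ, ‖cp β (ctr s κ) s ζ * G ζ‖ ^ 2 := by
        rw [Finset.mul_sum]
        exact Finset.sum_congr rfl fun κ _ => hcap κ
    _ = s ^ 4 * ∫ ζ, ∑ κ ∈ Ks 2 s, ‖cp β (ctr s κ) s ζ * G ζ‖ ^ 2 := by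
        rw [integral_finsetSum _ fun κ _ => hint κ]
    _ ≤ s ^ 4 * ∫ ζ, ‖G ζ‖ ^ 2 := by
        refine mul_le_mul_of_nonneg_left ?_ (by positivity)
        refine integral_mono (integrable_finsetSum _ fun κ _ => hint κ) hintG ?_
        intro ζ
        have h1 := gce_sum hPUS hβ hs0 (Ks 2 s) ζ
        calc ∑ κ ∈ Ks 2 s, ‖cp β (ctr s κ) s ζ * G ζ‖ ^ 2
            = (∑ κ ∈ Ks 2 s, ‖cp β (ctr s κ) s ζ‖ ^ 2) * ‖G ζ‖ ^ 2 := by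
              rw [Finset.sum_mul]
              exact Finset.sum_congr rfl fun κ _ => by rw [norm_mul, mul_pow]
          _ ≤ 1 * ‖G ζ‖ ^ 2 := mul_le_mul_of_nonneg_right h1 (by positivity)
          _ = ‖G ζ‖ ^ 2 := one_mul _

end Pool.Agent.H33.D3
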