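import Pool.Agent.H81.D3.Targets

/-!
Row NRW of d3n_modules: at a narrow point the caps of the planks of large amplitude are near the
circles.
-/

set_option autoImplicit false

namespace Pool.Agent.H33.D3

open MeasureTheory Set
open Pool.Agent.H83.G Pool.Agent.H81.D3
open Pool.Agent.H82.G4 (aw uk)
open scoped ENNReal NNReal RealInnerProductSpace

/-- the cube of index `cb ρ z` -/
theorem nrw_near (ρ : ℝ) (z : Z 2) : ‖ρ⁻¹ • z - zc (cb ρ z)‖ ≤ 2 := by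
  have hfl : ∀ x : ℝ, |ρ⁻¹ * x - (⌊x / ρ⌋ : ℝ)| ≤ 1 := by
    intro x
    rw [← div_eq_inv_mul]
    have h1 := Int.floor_le (x / ρ)
    have h2 := Int.lt_floor_add_one (x / ρ)
    rw [abs_le]
    constructor <;> linarith
  rw [norm_prod_le_iff, norm_prod_le_iff]
  refine ⟨?_, ?_, ?_⟩
  · refine (hfl z.1).trans ?_
    norm_num
  · rw [EuclideanSpace.norm_eq]
    refine Real.sqrt_le_iff.2 ⟨by positivity, ?_⟩
    have h1 : ∀ i ∈ (Finset.univ : Finset (Fin 2)),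
        ‖(ρ⁻¹ • z - zc (cb ρ z)).2.1 i‖ ^ 2 ≤ 1 := by
      intro i _
      have h2 : (ρ⁻¹ • z - zc (cb ρ z)).2.1 i = ρ⁻¹ * z.2.1 i - (⌊z.2.1 i / ρ⌋ : ℝ) := rfl
      rw [h2, Real.norm_eq_abs]
      have h3 := hfl (z.2.1 i)
      exact pow_le_one₀ (abs_nonneg _) h3
    refine (Finset.sum_le_sum h1).trans ?_
    rw [Finset.sum_const, Finset.card_univ, Fintype.card_fin, nsmul_eq_mul, mul_one]
    norm_num
  · refine (hfl z.2.2).trans ?_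
    norm_num

/-- change of the cell in the weighted supremum -/
theorem nrw_aw (N : ℕ) (K : ℝ) (f : Z 2 → ℂ) (j j' : Zi 2) :
    aw N K 0 f j' ≤ ENNReal.ofReal ((1 + ‖(zc j' : Z 2) - zc j‖) ^ N) * aw N K 0 f j := by
  unfold aw
  refine iSup₂_le fun z _ => ?_
  have h0 : ‖f z‖ₑ * ENNReal.ofReal (wt N (K⁻¹ ^ 2 • z - zc j)) ≤
      ⨆ (z : Z 2) (_ : (0 : ℝ) ≤ ‖K⁻¹ ^ 2 • z - zc j‖),
        ‖f z‖ₑ * ENNReal.ofReal (wt N (K⁻¹ ^ 2 • z - zc j)) :=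
    le_iSup₂ (f := fun (z : Z 2) (_ : (0 : ℝ) ≤ ‖K⁻¹ ^ 2 • z - zc j‖) =>
      ‖f z‖ₑ * ENNReal.ofReal (wt N (K⁻¹ ^ 2 • z - zc j))) z (norm_nonneg _)
  have h1 : wt N (K⁻¹ ^ 2 • z - zc j') ≤
      (1 + ‖(zc j' : Z 2) - zc j‖) ^ N * wt N (K⁻¹ ^ 2 • z - zc j) := by
    unfold wt
    set a := ‖K⁻¹ ^ 2 • z - zc j'‖ with ha
    set b := ‖K⁻¹ ^ 2 • z - zc j‖ with hb
    set c := ‖(zc j' : Z 2) - zc j‖ with hc
    have ha0 : 0 ≤ a := norm_nonneg _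
    have hb0 : 0 ≤ b := norm_nonneg _
    have hc0 : 0 ≤ c := norm_nonneg _
    have hbac : b ≤ a + c := by
      rw [ha, hb, hc]
      have : K⁻¹ ^ 2 • z - zc j = (K⁻¹ ^ 2 • z - zc j') + (zc j' - zc j) := by abel
      rw [this]
      exact norm_add_le _ _
    have h2 : (1 + b) ^ N ≤ ((1 + c) * (1 + a)) ^ N := by
      refine pow_le_pow_left₀ (by positivity) ?_ N
      nlinarith
    rw [mul_pow] at h2
    rw [inv_le_iff_one_le_mul₀ (by positivity)]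
    have h3 : 0 < (1 + b) ^ N := by positivity
    calc (1 : ℝ) = (1 + b) ^ N * ((1 + b) ^ N)⁻¹ := (mul_inv_cancel₀ h3.ne').symm
      _ ≤ ((1 + c) ^ N * (1 + a) ^ N) * ((1 + b) ^ N)⁻¹ :=
          mul_le_mul_of_nonneg_right h2 (by positivity)
      _ = (1 + c) ^ N * ((1 + b) ^ N)⁻¹ * (1 + a) ^ N := by ring
  calc ‖f z‖ₑ * ENNReal.ofReal (wt N (K⁻¹ ^ 2 • z - zc j'))
      ≤ ‖f z‖ₑ * ENNReal.ofReal ((1 + ‖(zc j' : Z 2) - zc j‖) ^ N *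
          wt N (K⁻¹ ^ 2 • z - zc j)) := by gcongr
    _ = ENNReal.ofReal ((1 + ‖(zc j' : Z 2) - zc j‖) ^ N) *
          (‖f z‖ₑ * ENNReal.ofReal (wt N (K⁻¹ ^ 2 • z - zc j))) := by
        rw [ENNReal.ofReal_mul (by positivity)]
        ring
    _ ≤ _ := by gcongr

/-- the distance of the cells -/
theorem nrw_cell {D K δ : ℝ} (hLOB : T_LOB) (hD : 0 ≤ D) (hK : 1 ≤ K) (hδ0 : 0 < δ)
    (hδ : δ ≤ 1 / 100) (W : Pk 2) (hW : ‖ctr K⁻¹ W.1‖ ≤ D) (y z : Z 2)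
    (hz : ‖fc (K ^ 2) δ W.1 z - zc W.2‖ ≤ (K ^ 2) ^ δ) :
    1 + ‖(zc (cb ((K ^ 6) ^ 2) y) : Z 2) - zc (cb ((K ^ 6) ^ 2) z)‖ ≤
      (5 + 2 * (1 + D) ^ 2) * (1 + ‖fc (K ^ 2) δ W.1 y - zc W.2‖) := by
  have hK0 : 0 < K := by linarith
  have hsR : sR (K ^ 2) = K⁻¹ := by
    unfold sR
    rw [Real.sqrt_sq hK0.le]
  set ρ : ℝ := (K ^ 6) ^ 2 with hρ
  set v := ‖fc (K ^ 2) δ W.1 y - zc W.2‖ with hv
  set T : ℝ := (K ^ 2) ^ δ with hT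
  have hT1 : 1 ≤ T := Real.one_le_rpow (by nlinarith) hδ0.le
  have hT0 : 0 < T := by linarith
  have hT2 : T ≤ K := by
    rw [hT, ← Real.rpow_natCast, ← Real.rpow_mul hK0.le]
    calc K ^ (((2 : ℕ) : ℝ) * δ) ≤ K ^ (1 : ℝ) := by
          refine Real.rpow_le_rpow_of_exponent_le hK ?_
          push_cast
          linarith
      _ = K := Real.rpow_one K
  have h1 := nrw_near ρ y
  have h2 := nrw_near ρ z
  -- the difference in the coordinates of the cap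
  have hLd : ‖Lo (ctr K⁻¹ W.1) K⁻¹ (y - z)‖ ≤ T * (v + T) := by
    have e1 : fc (K ^ 2) δ W.1 y - fc (K ^ 2) δ W.1 z =
        (K ^ 2) ^ (-δ) • Lo (ctr K⁻¹ W.1) K⁻¹ (y - z) := by
      unfold fc
      rw [hsR, ← smul_sub, Pool.Agent.H91.EL.Lo_sub]
    have e2 : ‖fc (K ^ 2) δ W.1 y - fc (K ^ 2) δ W.1 z‖ ≤ v + T := by
      have e3 : fc (K ^ 2) δ W.1 y - fc (K ^ 2) δ W.1 z =
          (fc (K ^ 2) δ W.1 y - zc W.2) - (fc (K ^ 2) δ W.1 z - zc W.2) := by abel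
      rw [e3]
      exact (norm_sub_le _ _).trans (add_le_add le_rfl hz)
    rw [e1, norm_smul, Real.rpow_neg (by positivity), ← hT,
      Real.norm_of_nonneg (by positivity)] at e2
    rwa [inv_mul_le_iff₀ hT0] at e2
  have hyz : ‖y - z‖ ≤ (1 + D) ^ 2 * K ^ 2 * (T * (v + T)) := by
    have h3 := (hLOB 2 D hD).2.1 (ctr K⁻¹ W.1) K⁻¹ (y - z) hW (inv_pos.2 hK0)
      (inv_le_one_of_one_le₀ hK)
    rw [inv_inv] at h3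
    exact h3.trans (mul_le_mul_of_nonneg_left hLd (by positivity))
  have hv0 : 0 ≤ v := norm_nonneg _
  have h4 : ‖ρ⁻¹ • (y - z)‖ ≤ (1 + D) ^ 2 * (v + 1) := by
    rw [norm_smul, Real.norm_of_nonneg (by positivity), hρ]
    have e1 : T * (v + T) ≤ K ^ 2 * (v + 1) := by
      have : T * T ≤ K * K := mul_le_mul hT2 hT2 hT0.le hK0.le
      have : T * v ≤ K ^ 2 * v := by
        refine mul_le_mul_of_nonneg_right ?_ hv0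
        nlinarith
      nlinarith
    have e2 : (1 + D) ^ 2 * K ^ 2 * (T * (v + T)) ≤ (1 + D) ^ 2 * K ^ 2 * (K ^ 2 * (v + 1)) :=
      mul_le_mul_of_nonneg_left e1 (by positivity)
    rw [inv_mul_le_iff₀ (by positivity)]
    refine hyz.trans (e2.trans ?_)
    have e3 : K ^ 4 ≤ (K ^ 6) ^ 2 := by
      rw [← pow_mul]
      exact pow_le_pow_right₀ hK (by norm_num)
    calc (1 + D) ^ 2 * K ^ 2 * (K ^ 2 * (v + 1)) = K ^ 4 * ((1 + D) ^ 2 * (v + 1)) := by ring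
      _ ≤ (K ^ 6) ^ 2 * ((1 + D) ^ 2 * (v + 1)) :=
          mul_le_mul_of_nonneg_right e3 (by positivity)
  have h5 : (zc (cb ρ y) : Z 2) - zc (cb ρ z) =
      ρ⁻¹ • (y - z) - (ρ⁻¹ • y - zc (cb ρ y)) + (ρ⁻¹ • z - zc (cb ρ z)) := by
    rw [smul_sub]; abel
  rw [h5]
  have h6 : ‖ρ⁻¹ • (y - z) - (ρ⁻¹ • y - zc (cb ρ y)) + (ρ⁻¹ • z - zc (cb ρ z))‖ ≤
      (1 + D) ^ 2 * (v + 1) + 2 + 2 :=
    (norm_add_le _ _).trans (add_le_add ((norm_sub_le _ _).trans (add_le_add h4 h1)) h2)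
  have h7 : 0 ≤ (1 + D) ^ 2 := by positivity
  nlinarith

/-- integral of the weight of a plank -/
theorem nrw_int (hLOI : T_LOI) (hWT2 : T_WT2) : ∃ C : ℝ, 0 < C ∧ ∀ (K δ : ℝ) (W : Pk 2), 1 ≤ K →
    ENNReal.ofReal ((K ^ 2) ^ (-(δ * ((2 : ℕ) + 2))) * K⁻¹ ^ (2 + 2)) *
      ∫⁻ y, ENNReal.ofReal (wt 5 (fc (K ^ 2) δ W.1 y - zc W.2)) ≤ ENNReal.ofReal C := by
  obtain ⟨CW, hCW, -, -⟩ := hWT2 2 5 (by norm_num)
  refine ⟨CW + 1, by positivity, ?_⟩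
  intro K δ W hK
  have hK0 : 0 < K := by linarith
  have hsR : sR (K ^ 2) = K⁻¹ := by
    unfold sR
    rw [Real.sqrt_sq hK0.le]
  have hs : 0 < K⁻¹ := inv_pos.2 hK0
  have h1 := (hLOI 2 (ctr K⁻¹ W.1) K⁻¹ hs).1
    (fun x => ENNReal.ofReal (wt 5 ((K ^ 2) ^ (-δ) • x - zc W.2)))
  have h2 : (fun y : Z 2 => ENNReal.ofReal (wt 5 (fc (K ^ 2) δ W.1 y - zc W.2))) =
      fun y => ENNReal.ofReal (wt 5 ((K ^ 2) ^ (-δ) • Lo (ctr K⁻¹ W.1) K⁻¹ y - zc W.2)) := by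
    funext y
    unfold fc
    rw [hsR]
  rw [h2, h1]
  have hp : 0 < (K ^ 2) ^ (-δ) := by positivity
  have h3 := hCW ((K ^ 2) ^ (-δ)) (zc W.2) hp
  rw [inv_inv]
  have h4 : ENNReal.ofReal ((K ^ 2) ^ (-(δ * ((2 : ℕ) + 2))) * K⁻¹ ^ (2 + 2)) *
      (ENNReal.ofReal (K ^ (2 + 2)) * (CW * ENNReal.ofReal (((K ^ 2) ^ (-δ))⁻¹ ^ (2 + 2)))) =
      CW := by
    have e1 : (K ^ 2) ^ (-(δ * ((2 : ℕ) + 2))) = ((K ^ 2) ^ (-δ)) ^ 4 := by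
      rw [← Real.rpow_natCast ((K ^ 2) ^ (-δ)) 4, ← Real.rpow_mul (by positivity)]
      congr 1
      push_cast
      ring
    have e2 : ENNReal.ofReal ((K ^ 2) ^ (-(δ * ((2 : ℕ) + 2))) * K⁻¹ ^ (2 + 2)) *
      (ENNReal.ofReal (K ^ (2 + 2)) * (CW * ENNReal.ofReal (((K ^ 2) ^ (-δ))⁻¹ ^ (2 + 2)))) =
      (ENNReal.ofReal (((K ^ 2) ^ (-(δ * ((2 : ℕ) + 2))) * K⁻¹ ^ (2 + 2)) * K ^ (2 + 2) *
        (((K ^ 2) ^ (-δ))⁻¹ ^ (2 + 2)))) * CW := by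
      rw [ENNReal.ofReal_mul (p := (K ^ 2) ^ (-(δ * ((2 : ℕ) + 2))) * K⁻¹ ^ (2 + 2) *
          K ^ (2 + 2)) (by positivity),
        ENNReal.ofReal_mul (p := (K ^ 2) ^ (-(δ * ((2 : ℕ) + 2))) * K⁻¹ ^ (2 + 2))
          (by positivity)]
      ring
    rw [e2, e1]
    have e3 : ((K ^ 2) ^ (-δ)) ^ 4 * K⁻¹ ^ (2 + 2) * K ^ (2 + 2) *
        (((K ^ 2) ^ (-δ))⁻¹ ^ (2 + 2)) = 1 := by
      have f1 : K⁻¹ ^ (2 + 2) * K ^ (2 + 2) = 1 := by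
        rw [← mul_pow, inv_mul_cancel₀ hK0.ne', one_pow]
      have f2 : ((K ^ 2) ^ (-δ)) ^ 4 * (((K ^ 2) ^ (-δ))⁻¹ ^ (2 + 2)) = 1 := by
        rw [← mul_pow, mul_inv_cancel₀ hp.ne', one_pow]
      calc ((K ^ 2) ^ (-δ)) ^ 4 * K⁻¹ ^ (2 + 2) * K ^ (2 + 2) * (((K ^ 2) ^ (-δ))⁻¹ ^ (2 + 2))
          = (K⁻¹ ^ (2 + 2) * K ^ (2 + 2)) *
            (((K ^ 2) ^ (-δ)) ^ 4 * (((K ^ 2) ^ (-δ))⁻¹ ^ (2 + 2))) := by ring
        _ = 1 := by rw [f1, f2, one_mul]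
    rw [e3, ENNReal.ofReal_one, one_mul]
  calc ENNReal.ofReal ((K ^ 2) ^ (-(δ * ((2 : ℕ) + 2))) * K⁻¹ ^ (2 + 2)) *
      (ENNReal.ofReal (K ^ (2 + 2)) *
        ∫⁻ z : Z 2, ENNReal.ofReal (wt 5 ((K ^ 2) ^ (-δ) • z - zc W.2)))
      ≤ ENNReal.ofReal ((K ^ 2) ^ (-(δ * ((2 : ℕ) + 2))) * K⁻¹ ^ (2 + 2)) *
      (ENNReal.ofReal (K ^ (2 + 2)) * (CW * ENNReal.ofReal (((K ^ 2) ^ (-δ))⁻¹ ^ (2 + 2)))) := by
        gcongr
    _ = CW := h4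
    _ ≤ ENNReal.ofReal (CW + 1) := by
        rw [← ENNReal.ofReal_coe_nnreal]
        exact ENNReal.ofReal_le_ofReal (by linarith)

open scoped Classical in
/-- pointwise bound of the piece of the cap of `W` -/
theorem nrw_pt {N₁ n : ℕ} {β : E 2 → ℂ} {CS : ℝ≥0} {CP K δ h : ℝ} {G : Z 2 → ℂ} {z : Z 2}
    {V : Fin n → Z 2} {W : Pk 2} (hLOB : T_LOB)
    (hCS : ∀ (K₁ K : ℝ) (G : Z 2 → ℂ) (j : Zi 2) (z : Z 2) (k' : Fin 2 → ℤ), 1 ≤ K₁ → K₁ ≤ K →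
      TC G → (∀ ζ, G ζ ≠ 0 → 1 / 2 ≤ ζ.1 ∧ ζ.1 ≤ 6 ∧ ‖ζ.2.1‖ ≤ 3 / 2 * ζ.1) →
      ‖K⁻¹ ^ 2 • z - zc j‖ ≤ ((2 : ℕ) : ℝ) + 1 → k' ∈ Ks 2 K₁⁻¹ →
      ‖uk β K₁ G k' z‖ₑ ≤
        CS * ∑ k ∈ (Ks 2 K⁻¹).filter (fun k => ‖ctr K⁻¹ k - ctr K₁⁻¹ k'‖ ≤ 2 / K₁),
          aw N₁ K 0 (uk β K G k) j)
    (hCP : 0 < CP)
    (hcount : ∀ (s ρ : ℝ) (x : E 2) (J : Finset (Fin 2 → ℤ)), 0 < s → 0 ≤ ρ →
      (∀ k ∈ J, ‖ctr s k - x‖ ≤ ρ) → (J.card : ℝ) ≤ CP * (1 + ρ / s) ^ 2)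
    (hctr : ∀ (s : ℝ) (k : Fin 2 → ℤ), 0 < s → s ≤ 1 → k ∈ Ks 2 s → ‖ctr s k‖ ≤ CP)
    (hδ0 : 0 < δ) (hδ1 : δ ≤ 1 / 100) (hK : 1 ≤ K) (hh : 0 ≤ h) (hG : TC G)
    (hsup : ∀ ζ, G ζ ≠ 0 → 1 / 2 ≤ ζ.1 ∧ ζ.1 ≤ 6 ∧ ‖ζ.2.1‖ ≤ 3 / 2 * ζ.1)
    (hW : W.1 ∈ Ks 2 K⁻¹) (hz : near (K ^ 2) δ W z) (hN : Nar β N₁ K h n G z V)
    (hcon : ∀ j, ∀ η ∈ Cz (V j), 3 / K < ‖ctr K⁻¹ W.1 - η‖) (y : Z 2) :
    ‖TP β (ctr K⁻¹ W.1) K⁻¹ G y‖ₑ ≤ ENNReal.ofReal ((CS * (CP * 9 * K ^ 10) *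
      (5 + 2 * (1 + CP) ^ 2) ^ N₁ * h) * (1 + ‖fc (K ^ 2) δ W.1 y - zc W.2‖) ^ N₁) := by
  have hK0 : 0 < K := by linarith
  have hK6 : K ≤ K ^ 6 := by
    calc K = K ^ 1 := (pow_one K).symm
      _ ≤ K ^ 6 := pow_le_pow_right₀ hK (by norm_num)
  have hWc : ‖ctr K⁻¹ W.1‖ ≤ CP := hctr K⁻¹ W.1 (inv_pos.2 hK0) (inv_le_one_of_one_le₀ hK) hW
  set j0 : Zi 2 := cb ((K ^ 6) ^ 2) z with hj0
  set j' : Zi 2 := cb ((K ^ 6) ^ 2) y with hj'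
  have hy : ‖(K ^ 6)⁻¹ ^ 2 • y - zc j'‖ ≤ ((2 : ℕ) : ℝ) + 1 := by
    have h1 := nrw_near ((K ^ 6) ^ 2) y
    rw [inv_pow]
    refine h1.trans ?_
    norm_num
  have h1 := hCS K (K ^ 6) G j' y W.1 hK hK6 hG hsup hy hW
  set J := (Ks 2 (K ^ 6)⁻¹).filter (fun k => ‖ctr (K ^ 6)⁻¹ k - ctr K⁻¹ W.1‖ ≤ 2 / K) with hJ
  have hcell := nrw_cell (D := CP) hLOB hCP.le hK hδ0 hδ1 W hWc y z hz
  rw [← hj0, ← hj'] at hcell
  set v := ‖fc (K ^ 2) δ W.1 y - zc W.2‖ with hv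
  have hv0 : 0 ≤ v := norm_nonneg _
  set C1 : ℝ := 5 + 2 * (1 + CP) ^ 2 with hC1
  have hC10 : 0 < C1 := by positivity
  have h2 : ∀ k ∈ J, aw N₁ (K ^ 6) 0 (uk β (K ^ 6) G k) j' ≤
      ENNReal.ofReal ((C1 * (1 + v)) ^ N₁ * h) := by
    intro k hk
    have hk' := Finset.mem_filter.1 hk
    have h3 : aw N₁ (K ^ 6) 0 (uk β (K ^ 6) G k) j0 ≤ ENNReal.ofReal h := by
      by_contra h4
      push Not at h4
      obtain ⟨j, η, hη, h5⟩ := hN.2 k hk'.1 h4.le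
      have h6 := hcon j η hη
      have h7 : ctr K⁻¹ W.1 - η = (ctr (K ^ 6)⁻¹ k - η) - (ctr (K ^ 6)⁻¹ k - ctr K⁻¹ W.1) := by
        abel
      rw [h7] at h6
      have h8 := norm_sub_le (ctr (K ^ 6)⁻¹ k - η) (ctr (K ^ 6)⁻¹ k - ctr K⁻¹ W.1)
      have h9 : 3 / K = K⁻¹ + 2 / K := by field_simp; norm_num
      linarith [hk'.2]
    refine (nrw_aw N₁ (K ^ 6) (uk β (K ^ 6) G k) j0 j').trans ?_
    rw [ENNReal.ofReal_mul (by positivity)]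
    gcongr
  have h3 : ∑ k ∈ J, aw N₁ (K ^ 6) 0 (uk β (K ^ 6) G k) j' ≤
      (J.card : ℝ≥0∞) * ENNReal.ofReal ((C1 * (1 + v)) ^ N₁ * h) := by
    refine (Finset.sum_le_sum h2).trans ?_
    rw [Finset.sum_const, nsmul_eq_mul]
  have h4 : (J.card : ℝ) ≤ CP * 9 * K ^ 10 := by
    have h5 := hcount (K ^ 6)⁻¹ (2 / K) (ctr K⁻¹ W.1) J (by positivity) (by positivity)
      (fun k hk => (Finset.mem_filter.1 hk).2)
    refine h5.trans ?_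
    have h6 : (1 + 2 / K / (K ^ 6)⁻¹) ^ 2 ≤ 9 * K ^ 10 := by
      have h7 : 2 / K / (K ^ 6)⁻¹ = 2 * K ^ 5 := by field_simp
      have h8 : 1 ≤ K ^ 5 := one_le_pow₀ hK
      rw [h7]
      calc (1 + 2 * K ^ 5) ^ 2 ≤ (3 * K ^ 5) ^ 2 := by
            refine pow_le_pow_left₀ (by positivity) ?_ 2
            linarith
        _ = 9 * K ^ 10 := by ring
    calc CP * (1 + 2 / K / (K ^ 6)⁻¹) ^ 2 ≤ CP * (9 * K ^ 10) :=
          mul_le_mul_of_nonneg_left h6 hCP.le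
      _ = CP * 9 * K ^ 10 := by ring
  have h5 : (J.card : ℝ≥0∞) ≤ ENNReal.ofReal (CP * 9 * K ^ 10) := by
    rw [← ENNReal.ofReal_natCast]
    exact ENNReal.ofReal_le_ofReal h4
  have h6 : ‖TP β (ctr K⁻¹ W.1) K⁻¹ G y‖ₑ = ‖uk β K G W.1 y‖ₑ := rfl
  rw [h6]
  calc ‖uk β K G W.1 y‖ₑ ≤ CS * ∑ k ∈ J, aw N₁ (K ^ 6) 0 (uk β (K ^ 6) G k) j' := h1
    _ ≤ CS * (ENNReal.ofReal (CP * 9 * K ^ 10) *
        ENNReal.ofReal ((C1 * (1 + v)) ^ N₁ * h)) := by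
        gcongr
        exact h3.trans (by gcongr)
    _ = ENNReal.ofReal ((CS * (CP * 9 * K ^ 10) * C1 ^ N₁ * h) * (1 + v) ^ N₁) := by
        rw [← ENNReal.ofReal_mul (by positivity), ← ENNReal.ofReal_coe_nnreal,
          ← ENNReal.ofReal_mul (by positivity)]
        congr 1
        rw [mul_pow]
        ring

theorem pf_NRW (hSIG : Pool.Agent.H82.G4.T_SIG) (hPUS : T_PUS) (hLOI : T_LOI) (hLOB : T_LOB)
    (hWT2 : T_WT2) : T_NRW := by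
  classical
  intro L N₁ β δ hβ hδ0 hδ1
  obtain ⟨CS, hCS⟩ := hSIG 2 N₁ β hβ
  obtain ⟨-, -, CP, hCP, -, hcount, hctr⟩ := hPUS 2
  obtain ⟨CI, hCI, hint⟩ := nrw_int hLOI hWT2
  refine ⟨2 * N₁ + 5, fun N hN => ?_⟩
  set C1 : ℝ := 5 + 2 * (1 + CP) ^ 2 with hC1
  have hC10 : 0 < C1 := by positivity
  set B1 : ℝ := CS * (CP * 9) * C1 ^ N₁ with hB1
  have hB10 : 0 ≤ B1 := by positivity
  refine ⟨B1 * Real.sqrt CI + 1, by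
    have : 0 ≤ B1 * Real.sqrt CI := by positivity
    linarith, ?_⟩
  intro R A h K n G z V W hR hCK hKR hA hh hG hW hz hal hNar
  by_contra hcon
  push Not at hcon
  have hK : (1 : ℝ) ≤ K := by
    have : 0 ≤ B1 * Real.sqrt CI := by positivity
    linarith
  set k : ℝ := (K : ℝ) with hk
  have hK0 : 0 < k := by linarith
  have hsup : ∀ ζ, G ζ ≠ 0 → 1 / 2 ≤ ζ.1 ∧ ζ.1 ≤ 6 ∧ ‖ζ.2.1‖ ≤ 3 / 2 * ζ.1 := by
    intro ζ hζ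
    obtain ⟨a1, a2, a3, -⟩ := hG.2.1 ζ hζ
    refine ⟨by linarith, by linarith, ?_⟩
    refine a3.trans ?_
    have : 0 ≤ ζ.1 := by linarith
    nlinarith
  set x : ℝ := k ^ (-100 : ℝ) * h with hx
  have hx0 : 0 ≤ x := by positivity
  have hpt := nrw_pt (W := W) (z := z) (V := V) (h := x) (δ := δ) (K := k) (G := G) hLOB
    (fun K₁ K G j z k' h1 h2 h3 h4 h5 h6 => hCS K₁ K G j z k' h1 h2 h3 h4 h5 h6)
    hCP hcount hctr hδ0 hδ1 hK hx0 hG.1 hsup hW hz hNar hcon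
  set B : ℝ := CS * (CP * 9 * k ^ 10) * C1 ^ N₁ * x with hB
  have hB0 : 0 ≤ B := by positivity
  have hsR : sR (k ^ 2) = k⁻¹ := by
    unfold sR
    rw [Real.sqrt_sq hK0.le]
  -- the square of the amplitude
  have hal2 : al2 N β (k ^ 2) δ G W ≤ ENNReal.ofReal (B ^ 2 * CI) := by
    unfold al2
    rw [hsR]
    have h1 : ∫⁻ y, ‖TP β (ctr k⁻¹ W.1) k⁻¹ G y‖ₑ ^ 2 *
        ENNReal.ofReal (wt N (fc (k ^ 2) δ W.1 y - zc W.2)) ≤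
        ENNReal.ofReal (B ^ 2) * ∫⁻ y, ENNReal.ofReal (wt 5 (fc (k ^ 2) δ W.1 y - zc W.2)) := by
      rw [← lintegral_const_mul' _ _ ENNReal.ofReal_ne_top]
      refine lintegral_mono fun y => ?_
      set v := ‖fc (k ^ 2) δ W.1 y - zc W.2‖ with hv
      have hv0 : 0 ≤ v := norm_nonneg _
      calc ‖TP β (ctr k⁻¹ W.1) k⁻¹ G y‖ₑ ^ 2 *
          ENNReal.ofReal (wt N (fc (k ^ 2) δ W.1 y - zc W.2))
          ≤ ENNReal.ofReal (B * (1 + v) ^ N₁) ^ 2 *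
            ENNReal.ofReal (wt N (fc (k ^ 2) δ W.1 y - zc W.2)) := by
            gcongr
            exact hpt y
        _ = ENNReal.ofReal ((B * (1 + v) ^ N₁) ^ 2 * ((1 + v) ^ N)⁻¹) := by
            rw [← ENNReal.ofReal_pow (by positivity), ← ENNReal.ofReal_mul (by positivity)]
            rfl
        _ ≤ ENNReal.ofReal (B ^ 2 * ((1 + v) ^ 5)⁻¹) := by
            refine ENNReal.ofReal_le_ofReal ?_
            have e1 : (1 + v) ^ (2 * N₁) * ((1 + v) ^ N)⁻¹ ≤ ((1 + v) ^ 5)⁻¹ := by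
              have e2 : (1 + v) ^ (2 * N₁ + 5) ≤ (1 + v) ^ N :=
                pow_le_pow_right₀ (by linarith) hN
              rw [pow_add] at e2
              rw [← div_eq_mul_inv, div_le_iff₀ (by positivity), ← div_eq_inv_mul,
                le_div_iff₀ (by positivity)]
              exact e2
            calc (B * (1 + v) ^ N₁) ^ 2 * ((1 + v) ^ N)⁻¹
                = B ^ 2 * ((1 + v) ^ (2 * N₁) * ((1 + v) ^ N)⁻¹) := by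
                  rw [mul_pow, ← pow_mul, mul_comm N₁ 2]; ring
              _ ≤ B ^ 2 * ((1 + v) ^ 5)⁻¹ := mul_le_mul_of_nonneg_left e1 (by positivity)
        _ = ENNReal.ofReal (B ^ 2) * ENNReal.ofReal (wt 5 (fc (k ^ 2) δ W.1 y - zc W.2)) := by
            rw [ENNReal.ofReal_mul (by positivity)]
            rfl
    have h2 := hint k δ W hK
    calc ENNReal.ofReal ((k ^ 2) ^ (-(δ * ((2 : ℕ) + 2))) * k⁻¹ ^ (2 + 2)) *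
        ∫⁻ y, ‖TP β (ctr k⁻¹ W.1) k⁻¹ G y‖ₑ ^ 2 *
          ENNReal.ofReal (wt N (fc (k ^ 2) δ W.1 y - zc W.2))
        ≤ ENNReal.ofReal ((k ^ 2) ^ (-(δ * ((2 : ℕ) + 2))) * k⁻¹ ^ (2 + 2)) *
          (ENNReal.ofReal (B ^ 2) *
            ∫⁻ y, ENNReal.ofReal (wt 5 (fc (k ^ 2) δ W.1 y - zc W.2))) := by gcongr
      _ = ENNReal.ofReal (B ^ 2) *
          (ENNReal.ofReal ((k ^ 2) ^ (-(δ * ((2 : ℕ) + 2))) * k⁻¹ ^ (2 + 2)) *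
            ∫⁻ y, ENNReal.ofReal (wt 5 (fc (k ^ 2) δ W.1 y - zc W.2))) := by ring
      _ ≤ ENNReal.ofReal (B ^ 2) * ENNReal.ofReal CI := by gcongr
      _ = ENNReal.ofReal (B ^ 2 * CI) := by rw [ENNReal.ofReal_mul (by positivity)]
  have hal3 : al N β (k ^ 2) δ G W ≤ B * Real.sqrt CI := by
    unfold al
    have h1 : (al2 N β (k ^ 2) δ G W).toReal ≤ B ^ 2 * CI :=
      ENNReal.toReal_le_of_le_ofReal (by positivity) hal2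
    refine (Real.sqrt_le_sqrt h1).trans ?_
    rw [Real.sqrt_mul (by positivity), Real.sqrt_sq hB0]
  have hfin := hal.trans hal3
  have e50 : k ^ (-50 : ℝ) = (k ^ 50)⁻¹ := by
    rw [Real.rpow_neg hK0.le]
    congr 1
    exact_mod_cast Real.rpow_natCast k 50
  have e100 : k ^ (-100 : ℝ) = (k ^ 100)⁻¹ := by
    rw [Real.rpow_neg hK0.le]
    congr 1
    exact_mod_cast Real.rpow_natCast k 100
  rw [hB, hx, e50, e100] at hfin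
  have h50 : 0 < k ^ 50 := by positivity
  have h60 : 0 < k ^ 60 := by positivity
  have h100 : k ^ 100 = k ^ 60 * k ^ 40 := by ring
  have h5 : k ^ 40 ≤ B1 * Real.sqrt CI := by
    have h6 : (k ^ 50)⁻¹ * h * (k ^ 90 * h⁻¹) ≤
        CS * (CP * 9 * k ^ 10) * C1 ^ N₁ * ((k ^ 100)⁻¹ * h) * Real.sqrt CI * (k ^ 90 * h⁻¹) :=
      mul_le_mul_of_nonneg_right hfin (by positivity)
    have h7 : (k ^ 50)⁻¹ * h * (k ^ 90 * h⁻¹) = k ^ 40 := by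
      field_simp
    have h8 : CS * (CP * 9 * k ^ 10) * C1 ^ N₁ * ((k ^ 100)⁻¹ * h) * Real.sqrt CI *
        (k ^ 90 * h⁻¹) = B1 * Real.sqrt CI := by
      rw [hB1]
      field_simp
    rw [h7, h8] at h6
    exact h6
  have h9 : k ≤ k ^ 40 := by
    calc k = k ^ 1 := (pow_one k).symm
      _ ≤ k ^ 40 := pow_le_pow_right₀ hK (by norm_num)
  linarith

end Pool.Agent.H33.D3
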